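import Pool.Agent.J4H7.WE.E2

set_option autoImplicit false

/-!
# A linear bound in Waring's problem for almost all real exponents

Let `θ > 1` be a real exponent and consider the numbers `⌊n ^ θ⌋`, `n = 1, 2, 3, ...`.  That all large integers are sums
of a bounded number `s` of them is a theorem of Segal (1933); for non-integral `θ` the best known `s` is, as for
integral exponents, of size `θ log θ` (Deshouillers 1974, Arkhipov and Zhitkov 1984).

The theorem: for almost every real `θ > 1` (Lebesgue measure) every sufficiently large integer is a sum of exactly `s`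
numbers `⌊n ^ θ⌋`, for EVERY `s ≥ 4 log 2 · θ + 3`.  This is linear in `θ`, and less than `4 θ` for `θ ≥ 2.45`.

Proof (files `Pool/Agent/J4H7/WE`).  Variables `x_i, y_i ∈ [X_i, 2 X_i]`, `X_i = X ^ (q ^ i)`, `i < m`, with `q` a little
less than `√(1 - 1/θ)`.  If `|∑ (x_i ^ θ - y_i ^ θ)| ≤ m` and `i` is the first index with `x_i ≠ y_i`, then only the
terms `i` and `i + 1` are of size at least `|x_i - y_i| X_i ^ (θ - 1)`, they nearly cancel, and differentiation with
respect to the EXPONENT multiplies them by `log X_i` and `log X_{i+1} = q log X_i`: so the derivative is large and of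
constant sign, and the exponents with this near-coincidence form a very short interval.  Summation over all `x, y` and
the Borel-Cantelli lemma give, for almost every `θ`, the optimal number `X ^ (-θ + ε) ∏ X_i ²` of near-coincidences; one
more variable `z`, with weight `sin² (π z ^ θ)`, and van der Corput's `k`-th derivative test do the rest.
-/

namespace Pool.Agent.Results.MP_570bef_nt.AlmostAllExponents

open MeasureTheory

/-- **Waring's problem for almost every real exponent, with linearly many summands.** -/
theorem result : ∀ᵐ θ : ℝ, 1 < θ → ∀ s : ℕ, 4 * Real.log 2 * θ + 3 ≤ s →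
    ∃ N₀ : ℕ, ∀ N : ℕ, N₀ ≤ N → ∃ x : Fin s → ℕ, (∀ i, 1 ≤ x i) ∧ ∑ i, ⌊(x i : ℝ) ^ θ⌋₊ = N :=
  Pool.Agent.J4H7.WE.main

end Pool.Agent.Results.MP_570bef_nt.AlmostAllExponents
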