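import Pool.Agent.J4H38.SW.Few2

/-!
# A linear bound in Waring's problem with few perturbed terms

Problem MP_570bef_nt asks whether `G(k) = O(k)`, for instance `G(k) ≤ 100 k`.  Here all but `ε k` of the terms are pure
`k`-th powers, and the remaining ones are `k`-th powers with independent random perturbations of size `n ^ (ε k)`: then
`k log (1 / ε) + ε k + 1` terms suffice.
-/

set_option autoImplicit false

open MeasureTheory ProbabilityTheory

namespace Pool.Agent.Results.MP_570bef_nt.FewPerturbedTerms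

/-- The perturbations `X n` (`n ≥ 1`): measurable, independent, with values in
`[0, C n ^ (γ k)]`, no value has probability more than `C / n ^ (γ k)`, and every value
`≤ c n ^ (γ k)` has probability at least `c / n ^ (γ k)`. -/
structure Smoothed {Ω : Type*} [MeasurableSpace Ω] (μ : Measure Ω) (X : ℕ → Ω → ℕ) (k : ℕ)
    (γ c C : ℝ) : Prop where
  meas : ∀ n, Measurable (X n)
  indep : iIndepFun X μ
  le : ∀ n : ℕ, 1 ≤ n → ∀ j : ℕ, C * (n : ℝ) ^ (γ * k) < j → μ.real {ω | X n ω = j} = 0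
  upper : ∀ n : ℕ, 1 ≤ n → ∀ j : ℕ, μ.real {ω | X n ω = j} ≤ C / (n : ℝ) ^ (γ * k)
  lower : ∀ n : ℕ, 1 ≤ n → ∀ j : ℕ, (j : ℝ) ≤ c * (n : ℝ) ^ (γ * k) →
    c / (n : ℝ) ^ (γ * k) ≤ μ.real {ω | X n ω = j}

/-- Every large integer is a sum of `u` positive `k`-th powers and `v` terms `n ^ k + x n`, `n ≥ 1`. -/
def AllLarge (k : ℕ) (x : ℕ → ℕ) (u v : ℕ) : Prop :=
  ∃ N₀ : ℕ, ∀ N : ℕ, N₀ ≤ N → ∃ (a : Fin u → ℕ) (n : Fin v → ℕ), (∀ i, 1 ≤ a i) ∧ (∀ i, 1 ≤ n i) ∧
    N = ∑ i, a i ^ k + ∑ i, (n i ^ k + x (n i))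

/-- The concrete model: the product of the uniform distributions on `{0, …, ⌊n ^ (γ k)⌋}`. -/
noncomputable def uniformModel (k : ℕ) (γ : ℝ) : Measure (ℕ → ℕ) :=
  Measure.infinitePi (fun n : ℕ => uniformOn (Set.Iic ⌊(n : ℝ) ^ (γ * k)⌋₊))

/-- general perturbations. -/
def General : Prop :=
  ∀ (Ω : Type) (_ : MeasurableSpace Ω) (μ : Measure Ω) (_ : IsProbabilityMeasure μ)
    (X : ℕ → Ω → ℕ) (k : ℕ) (γ c C : ℝ), 2 ≤ k → 0 < γ → γ < 1 → 0 < c → 0 < C →
    Smoothed μ X k γ c C →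
    ∀ᵐ ω ∂μ, ∀ u v : ℕ, (1 - 1 / (k : ℝ)) ^ u < γ → (1 - 1 / (k : ℝ)) ^ u < v / k →
      AllLarge k (fun n => X n ω) u v

/-- the uniform model. -/
def Uniform : Prop :=
  ∀ (k : ℕ) (γ : ℝ), 2 ≤ k → 0 < γ → γ < 1 →
    IsProbabilityMeasure (uniformModel k γ) ∧
    (∀ᵐ x ∂(uniformModel k γ), (∀ n : ℕ, 1 ≤ n → (x n : ℝ) ≤ (n : ℝ) ^ (γ * k)) ∧
      (∀ (ε : ℝ) (u v : ℕ), 0 < ε → ε ≤ γ → k * Real.log (1 / ε) < u → ε * k ≤ v →
        AllLarge k x u v) ∧
      (Real.exp (-99) ≤ γ →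
        AllLarge k x (100 * k - (⌊Real.exp (-99) * k⌋₊ + 1)) (⌊Real.exp (-99) * k⌋₊ + 1)) ∧
      (16 ≤ k → 1 / 50 ≤ γ → AllLarge k x (4 * k - (k / 50 + 1)) (k / 50 + 1)))

theorem general : General := by
  intro Ω _ μ _ X k γ c C hk hγ hγ1 hc hC h
  have h1 : ∀ u v : ℕ, ∀ᵐ ω ∂μ, (1 - 1 / (k : ℝ)) ^ u < γ → (1 - 1 / (k : ℝ)) ^ u < v / k →
      ∀ᶠ N : ℕ in Filter.atTop, Pool.Agent.J4H38.SW.Rep2 k (fun g => X g ω) u v N := by
    intro u v
    by_cases h2 : (1 - 1 / (k : ℝ)) ^ u < γ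
    · by_cases h3 : (1 - 1 / (k : ℝ)) ^ u < v / k
      · filter_upwards [Pool.Agent.J4H38.SW.few_fixed h.meas h.indep hk hγ hγ1 hc hC h.upper
          h.lower h2 h3] with ω hω _ _
        exact hω
      · exact Filter.Eventually.of_forall (fun ω _ h4 => absurd h4 h3)
    · exact Filter.Eventually.of_forall (fun ω h4 => absurd h4 h2)
  filter_upwards [ae_all_iff.2 (fun u => ae_all_iff.2 (fun v => h1 u v))] with ω hω u v h2 h3
  obtain ⟨N₀, hN₀⟩ := Filter.eventually_atTop.1 (hω u v h2 h3)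
  refine ⟨N₀, fun N hN => ?_⟩
  obtain ⟨a, n, ha, hn1, hn2⟩ := hN₀ N hN
  exact ⟨a, n, ha, hn1, hn2.symm⟩

theorem power_lt {k u : ℕ} (hk : 2 ≤ k) {ε : ℝ} (hε : 0 < ε) (h : k * Real.log (1 / ε) < u) :
    (1 - 1 / (k : ℝ)) ^ u < ε := by
  have hk0 : (0 : ℝ) < k := by positivity
  have hk2 : (2 : ℝ) ≤ k := by exact_mod_cast hk
  have hθ0 : 0 < 1 - 1 / (k : ℝ) := by
    rw [sub_pos, div_lt_one hk0]
    linarith
  have hlog2 : Real.log (1 / ε) = - Real.log ε := by rw [one_div, Real.log_inv]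
  rw [← Real.log_lt_log_iff (by positivity) hε, Real.log_pow]
  have h1 : Real.log (1 - 1 / (k : ℝ)) ≤ - (1 / k) := by
    have := Real.log_le_sub_one_of_pos hθ0
    linarith
  calc (u : ℝ) * Real.log (1 - 1 / (k : ℝ)) ≤ u * (- (1 / k)) := by gcongr
    _ < (k * Real.log (1 / ε)) * (- (1 / k)) := by
        apply mul_lt_mul_of_neg_right h
        rw [neg_lt_zero]
        positivity
    _ = Real.log ε := by
        rw [hlog2]
        field_simp

theorem log_fifty : Real.log 50 < 3.9175 := by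
  rw [Real.log_lt_iff_lt_exp (by norm_num)]
  have e1 : Real.exp 3.9175 = Real.exp 1 ^ 4 * Real.exp (-0.0825) := by
    rw [← Real.exp_nat_mul, ← Real.exp_add]
    norm_num
  have e2 : (2.7182818283 : ℝ) ^ 4 ≤ Real.exp 1 ^ 4 := by
    gcongr
    exact Real.exp_one_gt_d9.le
  have e3 : (0.9175 : ℝ) ≤ Real.exp (-0.0825) := by
    have := Real.add_one_le_exp (-0.0825 : ℝ)
    norm_num at this ⊢
    linarith
  rw [e1]
  calc (50 : ℝ) < (2.7182818283 : ℝ) ^ 4 * 0.9175 := by norm_num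
    _ ≤ _ := by gcongr

theorem uniformOn_real (K j : ℕ) : (uniformOn (Set.Iic K)).real {j} =
    if j ≤ K then 1 / ((K : ℝ) + 1) else 0 := by
  have h1 : (uniformOn ((Finset.Iic K : Finset ℕ) : Set ℕ)) (({j} : Finset ℕ) : Set ℕ) =
      ((Finset.Iic K ∩ {j}).card : ENNReal) / (Finset.Iic K).card := uniformOn_apply_finset
  rw [Finset.coe_Iic, Finset.coe_singleton] at h1
  rw [Measure.real, h1, ENNReal.toReal_div]
  simp only [ENNReal.toReal_natCast, Nat.card_Iic]
  split_ifs with h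
  · rw [Finset.inter_singleton_of_mem (Finset.mem_Iic.2 h)]
    simp
  · rw [Finset.inter_singleton_of_notMem (fun hc => h (Finset.mem_Iic.1 hc))]
    simp

instance prob (K : ℕ) : IsProbabilityMeasure (uniformOn (Set.Iic K)) :=
  isProbabilityMeasure_uniformOn (Set.finite_Iic K) ⟨0, Nat.zero_le _⟩

theorem eval_real (k : ℕ) (γ : ℝ) (n j : ℕ) :
    (uniformModel k γ).real {x | x n = j} =
      if j ≤ ⌊(n : ℝ) ^ (γ * k)⌋₊ then 1 / ((⌊(n : ℝ) ^ (γ * k)⌋₊ : ℝ) + 1) else 0 := by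
  rw [← uniformOn_real]
  have h := measurePreserving_eval_infinitePi
    (fun n : ℕ => uniformOn (Set.Iic ⌊(n : ℝ) ^ (γ * k)⌋₊)) n
  have h2 := h.measureReal_preimage (s := {j}) (measurableSet_singleton j).nullMeasurableSet
  exact h2

theorem smoothed (k : ℕ) {γ : ℝ} (hγ : 0 < γ) :
    Smoothed (uniformModel k γ) (fun n (x : ℕ → ℕ) => x n) k γ (1 / 2) 1 where
  meas := fun n => measurable_pi_apply n
  indep := iIndepFun_infinitePi (X := fun _ x => x) (fun _ => measurable_id)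
  le := by
    intro n _ j hj
    rw [eval_real, if_neg]
    intro hc
    have h1 : (j : ℝ) ≤ (n : ℝ) ^ (γ * k) :=
      le_trans (by exact_mod_cast hc) (Nat.floor_le (by positivity))
    linarith
  upper := by
    intro n hn j
    have hn' : (1 : ℝ) ≤ n := by exact_mod_cast hn
    have hp : 1 ≤ (n : ℝ) ^ (γ * k) := Real.one_le_rpow hn' (by positivity)
    rw [eval_real]
    split_ifs
    · have := (Nat.lt_floor_add_one ((n : ℝ) ^ (γ * k))).le
      exact div_le_div_of_nonneg_left one_pos.le (by linarith) this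
    · positivity
  lower := by
    intro n hn j hj
    have hn' : (1 : ℝ) ≤ n := by exact_mod_cast hn
    have hp : 1 ≤ (n : ℝ) ^ (γ * k) := Real.one_le_rpow hn' (by positivity)
    have hj' : j ≤ ⌊(n : ℝ) ^ (γ * k)⌋₊ := by
      apply Nat.le_floor
      linarith
    rw [eval_real, if_pos hj', div_div]
    have h1 : (⌊(n : ℝ) ^ (γ * k)⌋₊ : ℝ) ≤ (n : ℝ) ^ (γ * k) := Nat.floor_le (by positivity)
    exact div_le_div_of_nonneg_left one_pos.le (by positivity) (by linarith)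

theorem uniform : Uniform := by
  intro k γ hk hγ hγ1
  have hk0 : (0 : ℝ) < k := by positivity
  have hk2 : (2 : ℝ) ≤ k := by exact_mod_cast hk
  have hP : IsProbabilityMeasure (uniformModel k γ) := by
    unfold uniformModel
    infer_instance
  refine ⟨hP, ?_⟩
  have hS := smoothed k hγ
  have h1 : ∀ᵐ x ∂(uniformModel k γ), ∀ n : ℕ, 1 ≤ n → (x n : ℝ) ≤ (n : ℝ) ^ (γ * k) := by
    have h2 : ∀ᵐ x ∂(uniformModel k γ), ∀ n j : ℕ, 1 ≤ n → (n : ℝ) ^ (γ * k) < j → x n ≠ j := by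
      refine ae_all_iff.2 (fun n => ae_all_iff.2 (fun j => ?_))
      by_cases hn : 1 ≤ n
      · by_cases hj : (n : ℝ) ^ (γ * k) < j
        · have h3 := hS.le n hn j (by linarith)
          rw [measureReal_eq_zero_iff] at h3
          have h4 : ∀ᵐ x ∂(uniformModel k γ), ¬ x n = j := by
            rw [ae_iff]
            simpa using h3
          filter_upwards [h4] with x hx _ _
          exact hx
        · exact Filter.Eventually.of_forall (fun x _ h => absurd h hj)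
      · exact Filter.Eventually.of_forall (fun x h => absurd h hn)
    filter_upwards [h2] with x hx n hn
    by_contra hcon
    exact hx n (x n) hn (not_le.1 hcon) rfl
  filter_upwards [h1, general (ℕ → ℕ) _ (uniformModel k γ) hP _ k γ (1 / 2) 1 hk hγ hγ1
    (by norm_num) one_pos hS] with x hx1 hx2
  have hlin : ∀ (ε : ℝ) (u v : ℕ), 0 < ε → ε ≤ γ → k * Real.log (1 / ε) < u → ε * k ≤ v →
      AllLarge k x u v := by
    intro ε u v hε hεγ hu hv
    have h2 := power_lt hk hε hu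
    refine hx2 u v (h2.trans_le hεγ) (h2.trans_le ?_)
    rwa [le_div_iff₀ hk0]
  refine ⟨hx1, hlin, ?_, ?_⟩
  · intro h99
    have hexp : Real.exp (-99) ≤ 1 / 4 := by
      have h3 : Real.exp 2 = Real.exp 1 * Real.exp 1 := by
        rw [← Real.exp_add]
        norm_num
      have h4 : (4 : ℝ) ≤ Real.exp 2 := by
        have := Real.exp_one_gt_d9
        rw [h3]
        nlinarith
      calc Real.exp (-99) ≤ Real.exp (-2) := Real.exp_le_exp.2 (by norm_num)
        _ = (Real.exp 2)⁻¹ := Real.exp_neg 2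
        _ ≤ 4⁻¹ := inv_anti₀ (by norm_num) h4
        _ = 1 / 4 := by norm_num
    have hv1 : ((⌊Real.exp (-99) * k⌋₊ + 1 : ℕ) : ℝ) ≤ Real.exp (-99) * k + 1 := by
      push_cast
      have := Nat.floor_le (show 0 ≤ Real.exp (-99) * k by positivity)
      linarith
    have hv2 : Real.exp (-99) * k ≤ ((⌊Real.exp (-99) * k⌋₊ + 1 : ℕ) : ℝ) := by
      push_cast
      exact (Nat.lt_floor_add_one _).le
    have hv3 : Real.exp (-99) * k ≤ 1 / 4 * k := by gcongr
    have hle : ⌊Real.exp (-99) * k⌋₊ + 1 ≤ 100 * k := by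
      have : ((⌊Real.exp (-99) * k⌋₊ + 1 : ℕ) : ℝ) ≤ ((100 * k : ℕ) : ℝ) := by
        push_cast at hv1 ⊢
        linarith
      exact_mod_cast this
    refine hlin (Real.exp (-99)) _ _ (Real.exp_pos _) h99 ?_ hv2
    rw [one_div, ← Real.exp_neg, Real.log_exp, Nat.cast_sub hle]
    push_cast at hv1 ⊢
    linarith
  · intro hk16 hγ50
    have hk16' : (16 : ℝ) ≤ k := by exact_mod_cast hk16
    have hle : k / 50 + 1 ≤ 4 * k := by omega
    have hd1 : ((k / 50 : ℕ) : ℝ) ≤ k / 50 := Nat.cast_div_le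
    have hd2 : (k : ℝ) / 50 ≤ ((k / 50 + 1 : ℕ) : ℝ) := by
      have h3 : k ≤ 50 * (k / 50 + 1) := by omega
      have h4 : (k : ℝ) ≤ 50 * ((k / 50 + 1 : ℕ) : ℝ) := by exact_mod_cast h3
      linarith
    refine hlin (1 / 50) _ _ (by norm_num) hγ50 ?_ (by linarith)
    have h5 := log_fifty
    rw [one_div_one_div, Nat.cast_sub hle]
    push_cast
    have h6 : k * Real.log 50 < k * 3.9175 := by gcongr
    norm_num at h6 ⊢
    linarith

/-- Almost surely every large integer is a sum of `u` pure and `v` perturbed `k`-th powers, for all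
`u`, `v` with `(1 - 1 / k) ^ u < min (γ, v / k)`. -/
theorem result : General ∧ Uniform := ⟨general, uniform⟩

end Pool.Agent.Results.MP_570bef_nt.FewPerturbedTerms
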