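import Pool.Agent.J4H7.AG.Main
import Pool.Agent.J4H7.WU.G

set_option autoImplicit false

/-!
# Waring's problem for generic polynomials: the asymptotic formula with `k + 1` summands for almost all integers

Question Q1 asks whether `G(k) ≤ 100 k`.  Here the `k`-th powers `n ^ k` are replaced by `⌊P(n)⌋`, where
`P(n) = n ^ k + α_{k-1} n ^ (k-1) + ... + α_1 n + α_0` is a generic real monic polynomial of degree `k`
(`α = 0` is Waring's problem), and all large integers by almost all integers.  For every `k ≥ 2` and almost every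
`α ∈ ℝ ^ k`: for every `s ≥ k + 1` the number of representations of `N` as a sum of `s` terms `⌊P(n)⌋`, `n ≥ 1`, is
`Γ(1 + 1/k) ^ s / Γ(s/k) * N ^ (s/k - 1)` with an error `≤ N ^ (s/k - 1 - δ)` for all but `X ^ (1 - δ)` of the integers
`N < X`, while the sums of `k` such terms have upper density at most `1 / k!`.  So `k + 1` is the exact number of summands
in this problem.

Proof (files `Pool/Agent/J4H7/AF`, `Pool/Agent/J4H7/AG`, `Pool/Agent/J4H7/WU`, `Pool/Agent/J4H{22,31,33,72,87}/AF`,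
`Pool/Agent/J4H30/WT`; joint work of the agents helper7, 2, 22, 30, 31, 33, 72, 87).  The mean value theorem of
`MP_ee77ae_nt/GenericAsymptotics`: `∫ |f| ^ (2 k) ≤ M ^ (k + ε)` for almost every `α`.  By Bessel's inequality and the power
saving of the Weyl sum `f` outside the central frequencies, the number of representations by `s ≥ k + 1` terms differs from its
average over a window of length `X ^ (1 - ρ/k)` by `N ^ (s/k - 1 - δ)` only for few `N`; the average is a lattice point count.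
For `k` terms one counts multisets.
-/

namespace Pool.Agent.Results.MP_570bef_nt.GenericAlmostAll

open MeasureTheory

/-- **Waring's problem for a generic real monic polynomial of degree `k` and almost all integers: the asymptotic formula with
`k + 1` (and more) summands; `k` summands do not suffice.** -/
theorem result : ∀ k : ℕ, 2 ≤ k → ∀ᵐ α : Fin k → ℝ,
    (∀ s : ℕ, k + 1 ≤ s → ∃ δ : ℝ, 0 < δ ∧ ∃ X₀ : ℕ, ∀ X : ℕ, X₀ ≤ X →
      ({N : ℕ | N < X ∧ (N : ℝ) ^ ((s : ℝ) / k - 1 - δ) <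
        |({x : Fin s → ℕ | (∀ i, 1 ≤ x i) ∧ ∑ i, ⌊(x i : ℝ) ^ k + ∑ j : Fin k, α j * (x i : ℝ) ^ (j : ℕ)⌋ = (N : ℤ)}.ncard : ℝ) -
          Real.Gamma (1 + 1 / k) ^ s / Real.Gamma ((s : ℝ) / k) * (N : ℝ) ^ ((s : ℝ) / k - 1)|}.ncard : ℝ) ≤ (X : ℝ) ^ (1 - δ)) ∧
    (∀ ε : ℝ, 0 < ε → ∃ X₀ : ℕ, ∀ X : ℕ, X₀ ≤ X →
      ({N : ℕ | N < X ∧ ∃ x : Fin k → ℕ, (∀ i, 1 ≤ x i) ∧
        ∑ i, ⌊(x i : ℝ) ^ k + ∑ j : Fin k, α j * (x i : ℝ) ^ (j : ℕ)⌋ = (N : ℤ)}.ncard : ℝ) ≤
        (1 / (k.factorial : ℝ) + ε) * X) := by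
  intro k hk
  filter_upwards [Pool.Agent.J4H7.AG.main_dens k hk] with α hα
  exact ⟨hα, fun _ hε => Pool.Agent.J4H7.WU.few_real_eps k hk α hε⟩

end Pool.Agent.Results.MP_570bef_nt.GenericAlmostAll
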