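import Pool.Agent.J4H7.WR.G

set_option autoImplicit false

/-!
# Fewer than `4 k` summands for `k`-th powers with a perturbation of much lower order

Question Q1 asks whether every large integer is a sum of `4 k` positive `k`-th powers.  Here the `k`-th powers are
replaced by `n ^ k + ⌊n ^ g⌋`, where `g < k` is a real number: for almost every real `g > 1`, for ALL integers `k > g` and
all `s ≥ 2 (k + g - 1) log (1 + k / (g - 1)) + 3`, every large integer is a sum of `s` terms `n ^ k + ⌊n ^ g⌋`, `n ≥ 1`.

With `g = γ k`, `0 < γ < 1` fixed, this is `2 (1 + γ) log (1 + 1/γ) k + O_γ(1)` summands, a linear number for every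
`γ > 0`; it is `2.78 k` for `γ` near `1`, `3.3 k` for `γ = 1/2`, and less than `4 k` for all `g ≥ 0.26 k` and large `k`: the
perturbation may be as small as `n ^ (0.26 k)`.

Proof (files `Pool/Agent/J4H7/WR`, `Pool/Agent/J4H30/WR`, with parts of `Pool/Agent/J4H7/WP` and `Pool/Agent/J4H7/WE`; joint
work of the agents helper7 and helper30).  The variables `x_i, y_i` of level `i` are of size `X_i = X ^ (q ^ i)`, with
`q` near `1 - 1/(k + g - 1)`.  In a near-coincidence `|∑ (f(x_i) - f(y_i))| ≤ m`, `f(z) = z ^ k + z ^ g`, with `i` the first
index with `x_i ≠ y_i` and `d = |x_i - y_i|`, the terms with exponent `k` of the levels `i` and `i + 1` have to cancel,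
and the derivative with respect to `g` is of the size `B log X`, `B = d X_i ^ (k - 1) X_{i+1} ^ (g - k)`; so the `g` with this
near-coincidence have measure `O(1 / B)`, and there are none unless `|∑ (x_i ^ k - y_i ^ k)| ≪ B`.  The pairs with this
property are counted level by level, and the two estimates together give, for almost every `g`, the OPTIMAL number
`X ^ (-k + ε) ∏ X_i ²` of near-coincidences (Borel-Cantelli).  One further variable gives a power saving at every frequency
outside the central one: derivative tests for small frequencies, and for the others Weyl's inequality of degree `k + 4` on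
short intervals, where the leading coefficient comes from `z ^ g` alone.
-/

namespace Pool.Agent.Results.MP_570bef_nt.PerturbedPowers

open MeasureTheory

/-- **Waring's problem for `n ^ k + ⌊n ^ g⌋`: a linear number of summands for almost every `g`, proportional to `k`.** -/
theorem result : ∀ᵐ g : ℝ, 1 < g → ∀ k s : ℕ, g < k → 2 * (k + g - 1) * Real.log (1 + k / (g - 1)) + 3 ≤ s →
    ∃ N₀ : ℕ, ∀ N : ℕ, N₀ ≤ N →
      ∃ x : Fin s → ℕ, (∀ i, 1 ≤ x i) ∧ ∑ i, ((x i) ^ k + ⌊(x i : ℝ) ^ g⌋₊) = N :=
  Pool.Agent.J4H7.WR.main_all

end Pool.Agent.Results.MP_570bef_nt.PerturbedPowers
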